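import Pool.Agent.LIFTIS.Defs

/-!
# SDP counters for independent sets: the low coefficients of `D g` (row (b), helper59)
-/

set_option autoImplicit false

open scoped BigOperators Matrix

namespace LIFTIS

open SDX LIFT.h93d

/-- multiplication by one factor -/
theorem coef_factor {m : ℕ} (A B : Finset (Fin m)) (c : ℝ) (D : (Fin m → Bool) → ℝ) :
    coef B (fun y => D y * ((1 + c * chr A y) / 2))
      = (coef B D + c * coef (symmDiff B A) D) / 2 := by
  have h : ∀ y : Fin m → Bool, D y * ((1 + c * chr A y) / 2) * chr B y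
      = (D y * chr B y + c * (D y * chr (symmDiff B A) y)) / 2 := by
    intro y
    rw [← chr_mul']
    ring
  simp only [coef]
  rw [Finset.sum_congr rfl fun y _ => h y, ← Finset.sum_div, Finset.sum_add_distrib,
    ← Finset.mul_sum]
  ring

theorem card_symmDiff_le' {m : ℕ} (A B : Finset (Fin m)) :
    (symmDiff A B).card ≤ A.card + B.card := by
  rw [symmDiff_def, Finset.sup_eq_union]
  refine (Finset.card_union_le _ _).trans ?_
  exact Nat.add_le_add (Finset.card_le_card Finset.sdiff_subset)
    (Finset.card_le_card Finset.sdiff_subset)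

section
variable {M q : ℕ} (a : Fin M → Fin 3 → Fin q) (s : Fin M → Bool)

/-- the low coefficients of the product of `D` and some factors `(1 + s e * chr) / 2` -/
theorem coef_prod_low {w : ℕ} (D : (Fin (3 * q) → Bool) → ℝ)
    (h : ∀ e B, B.card + 3 ≤ w → coef (symmDiff B (vars a e)) D = sg (s e) * coef B D)
    {ι : Type} [DecidableEq ι] (f : ι → Fin M) (L : Finset ι) :
    ∀ B : Finset (Fin (3 * q)), B.card + 3 * L.card ≤ w →
      coef B (fun y => D y * ∏ l ∈ L, (1 + sg (s (f l)) * chr (vars a (f l)) y) / 2)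
        = coef B D := by
  induction L using Finset.induction_on with
  | empty =>
    intro B _
    simp
  | insert i L hi ih =>
    intro B hB
    rw [Finset.card_insert_of_notMem hi] at hB
    have h1 : ∀ y, D y * ∏ l ∈ insert i L, (1 + sg (s (f l)) * chr (vars a (f l)) y) / 2
        = (D y * ∏ l ∈ L, (1 + sg (s (f l)) * chr (vars a (f l)) y) / 2)
          * ((1 + sg (s (f i)) * chr (vars a (f i)) y) / 2) := by
      intro y
      rw [Finset.prod_insert hi]
      ring
    simp only [h1]
    have hc : (symmDiff B (vars a (f i))).card ≤ B.card + 3 := by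
      have := card_symmDiff_le' B (vars a (f i))
      rw [vars_card] at this
      exact this
    rw [coef_factor, ih B (by omega), ih _ (by omega), h (f i) B (by omega), ← mul_assoc,
      sg_mul_self, one_mul]
    ring

theorem coef_prod_le (D : (Fin (3 * q) → Bool) → ℝ) (hD : ∀ B, |coef B D| ≤ 1)
    {ι : Type} [DecidableEq ι] (f : ι → Fin M) (L : Finset ι) :
    ∀ B : Finset (Fin (3 * q)),
      |coef B (fun y => D y * ∏ l ∈ L, (1 + sg (s (f l)) * chr (vars a (f l)) y) / 2)| ≤ 1 := by
  induction L using Finset.induction_on with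
  | empty =>
    intro B
    simpa using hD B
  | insert i L hi ih =>
    intro B
    have h1 : ∀ y, D y * ∏ l ∈ insert i L, (1 + sg (s (f l)) * chr (vars a (f l)) y) / 2
        = (D y * ∏ l ∈ L, (1 + sg (s (f l)) * chr (vars a (f l)) y) / 2)
          * ((1 + sg (s (f i)) * chr (vars a (f i)) y) / 2) := by
      intro y
      rw [Finset.prod_insert hi]
      ring
    simp only [h1]
    rw [coef_factor, abs_div, abs_two, div_le_one two_pos]
    refine (abs_add_le _ _).trans ?_
    have h2 : |sg (s (f i))| = 1 := by cases s (f i) <;> norm_num [sg]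
    rw [abs_mul, h2, one_mul]
    linarith [ih B, ih (symmDiff B (vars a (f i)))]

end

section
variable {M T k q : ℕ} (a : Fin M → Fin 3 → Fin q) (s : Fin M → Bool)
  (φ : Fin T → Fin k → Fin M)

theorem satf_eq (τ : Fin T) (y : Fin (3 * q) → Bool) [Decidable (Sat a s φ y τ)] :
    satf a s φ τ y = if Sat a s φ y τ then 1 else 0 := by
  have h : ∀ l : Fin k, ((1 + sg (s (φ τ l)) * chr (vars a (φ τ l)) y) / 2 = 1 ∧
      ∏ t, sg (y (ve a (φ τ l) t)) = sg (s (φ τ l))) ∨
      ((1 + sg (s (φ τ l)) * chr (vars a (φ τ l)) y) / 2 = 0 ∧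
      ¬ ∏ t, sg (y (ve a (φ τ l) t)) = sg (s (φ τ l))) := by
    intro l
    have h1 : chr (vars a (φ τ l)) y = ∏ t : Fin 3, sg (y (ve a (φ τ l) t)) := chr_vars a _ y
    rw [← h1]
    rcases prod_sg (vars a (φ τ l)) y with h | h <;> rw [h] <;> cases s (φ τ l) <;>
      norm_num [sg]
  by_cases hs : Sat a s φ y τ
  · rw [if_pos hs, satf]
    refine Finset.prod_eq_one fun l _ => ?_
    rcases h l with h1 | h1
    · exact h1.1
    · exact absurd (hs l) h1.2
  · rw [if_neg hs, satf]
    have hs' := hs
    simp only [Sat, not_forall] at hs'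
    obtain ⟨l, hl⟩ := hs'
    refine Finset.prod_eq_zero (Finset.mem_univ l) ?_
    rcases h l with h1 | h1
    · exact absurd h1.2 hl
    · exact h1.1

theorem sum_satf (y : Fin (3 * q) → Bool) : ∑ τ, satf a s φ τ y = (nsat a s φ y : ℝ) := by
  classical
  rw [nsat, ← Finset.sum_boole]
  refine Finset.sum_congr rfl fun τ _ => ?_
  rw [satf_eq]

theorem gg_eq (y : Fin (3 * q) → Bool) : gg a s φ y = 1 - (nsat a s φ y : ℝ) / T := by
  rw [gg, sum_satf]

theorem nsat_le (y : Fin (3 * q) → Bool) : nsat a s φ y ≤ T := by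
  classical
  refine (Finset.card_filter_le _ _).trans ?_
  simp

theorem gg_le_one (y : Fin (3 * q) → Bool) : gg a s φ y ≤ 1 := by
  rw [gg_eq]
  have : (0 : ℝ) ≤ (nsat a s φ y : ℝ) / T := by positivity
  linarith

theorem gg_nonneg (y : Fin (3 * q) → Bool) : 0 ≤ gg a s φ y := by
  rw [gg_eq, sub_nonneg]
  have h : (nsat a s φ y : ℝ) ≤ T := by exact_mod_cast nsat_le a s φ y
  exact div_le_one_of_le₀ h (Nat.cast_nonneg _)

theorem coef_gg (D : (Fin (3 * q) → Bool) → ℝ) (B : Finset (Fin (3 * q))) :
    coef B (fun y => D y * gg a s φ y) = coef B D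
      - (∑ τ, coef B (fun y => D y * satf a s φ τ y)) / T := by
  have h : ∀ y, D y * gg a s φ y * chr B y
      = D y * chr B y - (∑ τ, D y * satf a s φ τ y * chr B y) / T := by
    intro y
    rw [gg, ← Finset.sum_mul, ← Finset.mul_sum]
    ring
  simp only [coef]
  rw [Finset.sum_congr rfl fun y _ => h y, Finset.sum_sub_distrib, ← Finset.sum_div,
    Finset.sum_comm, sub_div]
  congr 1
  rw [← Finset.sum_div]
  ring

/-- the low coefficients of `D g` vanish -/
theorem coef_gg_low {w : ℕ} (hT : 0 < T) (D : (Fin (3 * q) → Bool) → ℝ)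
    (h : ∀ e B, B.card + 3 ≤ w → coef (symmDiff B (vars a e)) D = sg (s e) * coef B D)
    (B : Finset (Fin (3 * q))) (hB : B.card + 3 * k ≤ w) :
    coef B (fun y => D y * gg a s φ y) = 0 := by
  have hT' : (0 : ℝ) < T := by exact_mod_cast hT
  rw [coef_gg, Finset.sum_congr rfl fun τ _ => show coef B (fun y => D y * satf a s φ τ y)
    = coef B D from coef_prod_low a s D h (φ τ) Finset.univ B (by
      rw [Finset.card_univ, Fintype.card_fin]
      exact hB), Finset.sum_const, Finset.card_univ, Fintype.card_fin, nsmul_eq_mul]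
  field_simp
  ring

theorem sum_gg {w : ℕ} (hT : 0 < T) (D : (Fin (3 * q) → Bool) → ℝ)
    (h : ∀ e B, B.card + 3 ≤ w → coef (symmDiff B (vars a e)) D = sg (s e) * coef B D)
    (hw : 3 * k ≤ w) : ∑ y, D y * gg a s φ y = 0 := by
  have h1 := coef_gg_low a s φ hT D h ∅ (by simpa using hw)
  have h2 : (0 : ℝ) < 2 ^ (3 * q) := by positivity
  rw [coef, Fintype.card_fin, div_eq_iff h2.ne', zero_mul] at h1
  simpa only [chr, Finset.prod_empty, mul_one] using h1

theorem coef_gg_le (hT : 0 < T) (D : (Fin (3 * q) → Bool) → ℝ) (hD : ∀ B, |coef B D| ≤ 1)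
    (B : Finset (Fin (3 * q))) : |coef B (fun y => D y * gg a s φ y)| ≤ 2 := by
  have hT' : (0 : ℝ) < T := by exact_mod_cast hT
  rw [coef_gg]
  have h1 : |(∑ τ, coef B (fun y => D y * satf a s φ τ y)) / T| ≤ 1 := by
    rw [abs_div, abs_of_pos hT', div_le_one hT']
    refine (Finset.abs_sum_le_sum_abs _ _).trans ?_
    refine (Finset.sum_le_sum (g := fun _ => (1 : ℝ)) fun τ _ => ?_).trans ?_
    · exact coef_prod_le a s D hD (φ τ) Finset.univ B
    · simp
  refine (abs_sub _ _).trans ?_
  linarith [hD B]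

end

end LIFTIS
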