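import Pool.Agent.LIFTIS.Defs

/-!
# LIFTIS, part (a): tuples of equations, by averaging (helper24)
-/

set_option autoImplicit false

open scoped BigOperators

namespace LIFTIS

namespace h24

open Classical in
theorem sum_phi {M : ℕ} (k T : ℕ) (Q : Fin M → Prop) (c : ℝ) :
    ∑ φ : Fin T → Fin k → Fin M, c ^ ((Finset.univ : Finset (Fin T)).filter
        fun τ => ∀ l : Fin k, Q (φ τ l)).card
      = ((M : ℝ) ^ k + (c - 1) * (((Finset.univ : Finset (Fin M)).filter Q).card : ℝ) ^ k) ^ T := by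
  have h1 : ∀ φ : Fin T → Fin k → Fin M,
      c ^ ((Finset.univ : Finset (Fin T)).filter fun τ => ∀ l : Fin k, Q (φ τ l)).card
        = ∏ τ, (1 + (c - 1) * if ∀ l : Fin k, Q (φ τ l) then (1 : ℝ) else 0) := by
    intro φ
    rw [← Finset.prod_const, Finset.prod_filter]
    refine Finset.prod_congr rfl fun τ _ => ?_
    by_cases h : ∀ l : Fin k, Q (φ τ l)
    · rw [if_pos h, if_pos h]
      ring
    · rw [if_neg h, if_neg h]
      ring
  rw [Finset.sum_congr rfl fun φ _ => h1 φ]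
  have h2 := Finset.prod_univ_sum (fun _ : Fin T => (Finset.univ : Finset (Fin k → Fin M)))
    (fun _ u => (1 + (c - 1) * if ∀ l : Fin k, Q (u l) then (1 : ℝ) else 0))
  rw [Fintype.piFinset_univ] at h2
  rw [← h2]
  have h3 : ∑ u : Fin k → Fin M, (1 + (c - 1) * if ∀ l : Fin k, Q (u l) then (1 : ℝ) else 0)
      = (M : ℝ) ^ k + (c - 1) * (((Finset.univ : Finset (Fin M)).filter Q).card : ℝ) ^ k := by
    rw [Finset.sum_add_distrib, ← Finset.mul_sum, Finset.sum_boole]
    have h4 : ((Finset.univ : Finset (Fin k → Fin M)).filter fun u => ∀ l : Fin k, Q (u l))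
        = Fintype.piFinset fun _ : Fin k => (Finset.univ : Finset (Fin M)).filter Q := by
      ext u
      simp [Fintype.mem_piFinset]
    rw [h4, Fintype.card_piFinset]
    simp
  rw [Finset.prod_congr rfl fun τ _ => h3, Finset.prod_const, Finset.card_univ, Fintype.card_fin]

open Classical in
/-- If every `y` satisfies at most a fraction `ρ` of `M` constraints and `y₀` satisfies one half of
them, then there are `2 ^ k * q` tuples of `k` constraints for which
`∑ y, 2 ^ (number of tuples satisfied by y)` is small and `y₀` satisfies many tuples. -/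
theorem exists_phi {Y : Type} [Fintype Y] {M : ℕ} (k : ℕ) (hM : 0 < M) (P : Y → Fin M → Prop)
    (ρ : ℝ) (hρ : ∀ y, (((Finset.univ : Finset (Fin M)).filter (P y)).card : ℝ) ≤ ρ * M)
    (y₀ : Y) (h₀ : 1 / 2 * (M : ℝ) ≤ (((Finset.univ : Finset (Fin M)).filter (P y₀)).card : ℝ))
    (q : ℕ) :
    ∃ φ : Fin (2 ^ k * q) → Fin k → Fin M,
      ∑ y : Y, (2 : ℝ) ^ ((Finset.univ : Finset (Fin (2 ^ k * q))).filter
        fun τ => ∀ l : Fin k, P y (φ τ l)).card
        ≤ 2 * (Fintype.card Y * Real.exp ((2 ^ k * q : ℕ) * ρ ^ k)) ∧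
      (1 / 2 : ℝ) ^ ((Finset.univ : Finset (Fin (2 ^ k * q))).filter
        fun τ => ∀ l : Fin k, P y₀ (φ τ l)).card ≤ 2 * Real.exp (-(q / 2)) := by
  have hM' : (0 : ℝ) < M := by exact_mod_cast hM
  have hMk : (0 : ℝ) < (M : ℝ) ^ k := by positivity
  have hY : (0 : ℝ) < Fintype.card Y := by
    have : Nonempty Y := ⟨y₀⟩
    exact_mod_cast Fintype.card_pos
  set T : ℕ := 2 ^ k * q with hT
  set X₁ : ℝ := Fintype.card Y * Real.exp ((T : ℕ) * ρ ^ k) with hX₁
  have hX₁0 : 0 < X₁ := by positivity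
  set X₂ : ℝ := Real.exp (-(q / 2)) with hX₂
  have hX₂0 : 0 < X₂ := Real.exp_pos _
  have h1 : ∑ φ : Fin T → Fin k → Fin M, ∑ y : Y, (2 : ℝ) ^ ((Finset.univ : Finset (Fin T)).filter
      fun τ => ∀ l : Fin k, P y (φ τ l)).card ≤ ((M : ℝ) ^ k) ^ T * X₁ := by
    rw [Finset.sum_comm]
    have h2 : ∀ y : Y, ∑ φ : Fin T → Fin k → Fin M, (2 : ℝ) ^ ((Finset.univ :
        Finset (Fin T)).filter fun τ => ∀ l : Fin k, P y (φ τ l)).card
        ≤ ((M : ℝ) ^ k) ^ T * Real.exp (T * ρ ^ k) := by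
      intro y
      rw [sum_phi]
      have h3 : (((Finset.univ : Finset (Fin M)).filter (P y)).card : ℝ) ^ k
          ≤ ρ ^ k * (M : ℝ) ^ k := by
        rw [← mul_pow]
        exact pow_le_pow_left₀ (Nat.cast_nonneg _) (hρ y) k
      have h4 : (M : ℝ) ^ k + (2 - 1) * (((Finset.univ : Finset (Fin M)).filter (P y)).card : ℝ) ^ k
          ≤ (M : ℝ) ^ k * Real.exp (ρ ^ k) := by
        have h5 := Real.add_one_le_exp (ρ ^ k)
        have h6 := mul_le_mul_of_nonneg_left h5 hMk.le
        linarith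
      calc _ ≤ ((M : ℝ) ^ k * Real.exp (ρ ^ k)) ^ T :=
            pow_le_pow_left₀ (by norm_num; positivity) h4 T
        _ = ((M : ℝ) ^ k) ^ T * Real.exp (T * ρ ^ k) := by
            rw [mul_pow, ← Real.exp_nat_mul]
    refine (Finset.sum_le_sum fun y _ => h2 y).trans (le_of_eq ?_)
    rw [Finset.sum_const, Finset.card_univ, nsmul_eq_mul, hX₁]
    ring
  have h2 : ∑ φ : Fin T → Fin k → Fin M, (1 / 2 : ℝ) ^ ((Finset.univ : Finset (Fin T)).filter
      fun τ => ∀ l : Fin k, P y₀ (φ τ l)).card ≤ ((M : ℝ) ^ k) ^ T * X₂ := by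
    rw [sum_phi]
    have h3 : (1 / 2 : ℝ) ^ k * (M : ℝ) ^ k
        ≤ (((Finset.univ : Finset (Fin M)).filter (P y₀)).card : ℝ) ^ k := by
      rw [← mul_pow]
      exact pow_le_pow_left₀ (by positivity) h₀ k
    have h3' : (((Finset.univ : Finset (Fin M)).filter (P y₀)).card : ℝ) ^ k ≤ (M : ℝ) ^ k := by
      refine pow_le_pow_left₀ (Nat.cast_nonneg _) ?_ k
      have : ((Finset.univ : Finset (Fin M)).filter (P y₀)).card ≤ M :=
        (Finset.card_filter_le _ _).trans (by simp)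
      exact_mod_cast this
    have h4 : (M : ℝ) ^ k
        + (1 / 2 - 1) * (((Finset.univ : Finset (Fin M)).filter (P y₀)).card : ℝ) ^ k
        ≤ (M : ℝ) ^ k * Real.exp (-((1 / 2) ^ k / 2)) := by
      have h5 := Real.add_one_le_exp (-((1 / 2 : ℝ) ^ k / 2))
      have h6 := mul_le_mul_of_nonneg_left h5 hMk.le
      linarith
    calc _ ≤ ((M : ℝ) ^ k * Real.exp (-((1 / 2) ^ k / 2))) ^ T :=
          pow_le_pow_left₀ (by linarith) h4 T
      _ = ((M : ℝ) ^ k) ^ T * X₂ := by
          rw [mul_pow, ← Real.exp_nat_mul, hX₂]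
          congr 2
          rw [hT]
          push_cast
          have h7 : (2 : ℝ) ^ k * (1 / 2) ^ k = 1 := by
            rw [← mul_pow]
            norm_num
          calc (2 : ℝ) ^ k * q * -((1 / 2) ^ k / 2) = -(((2 : ℝ) ^ k * (1 / 2) ^ k) * q / 2) := by
                ring
            _ = -(q / 2) := by rw [h7, one_mul]
  -- average
  by_contra hcon
  push Not at hcon
  have : Nonempty (Fin M) := ⟨⟨0, hM⟩⟩
  have h5 : ∑ _φ : Fin T → Fin k → Fin M, (2 : ℝ)
      < ∑ φ : Fin T → Fin k → Fin M, ((∑ y : Y, (2 : ℝ) ^ ((Finset.univ : Finset (Fin T)).filter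
        fun τ => ∀ l : Fin k, P y (φ τ l)).card) / X₁
        + (1 / 2 : ℝ) ^ ((Finset.univ : Finset (Fin T)).filter
        fun τ => ∀ l : Fin k, P y₀ (φ τ l)).card / X₂) := by
    refine Finset.sum_lt_sum_of_nonempty Finset.univ_nonempty fun φ _ => ?_
    have h6 : 0 ≤ (∑ y : Y, (2 : ℝ) ^ ((Finset.univ : Finset (Fin T)).filter
        fun τ => ∀ l : Fin k, P y (φ τ l)).card) / X₁ := by positivity
    have h7 : 0 < (1 / 2 : ℝ) ^ ((Finset.univ : Finset (Fin T)).filter
        fun τ => ∀ l : Fin k, P y₀ (φ τ l)).card / X₂ := by positivity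
    rcases le_or_gt (∑ y : Y, (2 : ℝ) ^ ((Finset.univ : Finset (Fin T)).filter
        fun τ => ∀ l : Fin k, P y (φ τ l)).card) (2 * X₁) with h8 | h8
    · have h9 := hcon φ h8
      have h10 : 2 < (1 / 2 : ℝ) ^ ((Finset.univ : Finset (Fin T)).filter
        fun τ => ∀ l : Fin k, P y₀ (φ τ l)).card / X₂ := by
        rw [lt_div_iff₀ hX₂0]
        exact h9
      linarith
    · have h10 : 2 < (∑ y : Y, (2 : ℝ) ^ ((Finset.univ : Finset (Fin T)).filter
        fun τ => ∀ l : Fin k, P y (φ τ l)).card) / X₁ := by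
        rw [lt_div_iff₀ hX₁0]
        exact h8
      linarith
  rw [Finset.sum_add_distrib, ← Finset.sum_div, ← Finset.sum_div, Finset.sum_const,
    Finset.card_univ, nsmul_eq_mul] at h5
  simp only [Fintype.card_fun, Fintype.card_fin] at h5
  push_cast at h5
  have h6 := (div_le_iff₀ hX₁0).2 h1
  have h7 := (div_le_iff₀ hX₂0).2 h2
  linarith

end h24

open SDX LIFT.h93d

namespace h24

theorem prod_const (v w : Bool) : (∏ _t : Fin 3, sg v = sg w) ↔ w = v := by
  rw [Fin.prod_univ_three]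
  cases v <;> cases w <;> norm_num [sg]

open Classical in
/-- an assignment which satisfies half of the equations -/
theorem exists_half {M q : ℕ} (a : Fin M → Fin 3 → Fin q) (s : Fin M → Bool) :
    ∃ y₀ : Fin (3 * q) → Bool, 1 / 2 * (M : ℝ) ≤
      (((Finset.univ : Finset (Fin M)).filter fun e =>
        ∏ t, sg (y₀ (ve a e t)) = sg (s e)).card : ℝ) := by
  have hv : ∀ v : Bool, ((Finset.univ : Finset (Fin M)).filter fun e =>
      ∏ t, sg ((fun _ => v : Fin (3 * q) → Bool) (ve a e t)) = sg (s e))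
      = (Finset.univ : Finset (Fin M)).filter fun e => s e = v := fun v =>
    Finset.filter_congr fun e _ => prod_const v (s e)
  have h1 : ((Finset.univ : Finset (Fin M)).filter fun e => s e = false).card
      + ((Finset.univ : Finset (Fin M)).filter fun e => s e = true).card = M := by
    have h2 : ((Finset.univ : Finset (Fin M)).filter fun e => s e = true)
        = (Finset.univ : Finset (Fin M)).filter fun e => ¬ s e = false :=
      Finset.filter_congr fun e _ => by simp
    rw [h2, Finset.card_filter_add_card_filter_not]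
    simp
  have h3 : (((Finset.univ : Finset (Fin M)).filter fun e => s e = false).card : ℝ)
      + (((Finset.univ : Finset (Fin M)).filter fun e => s e = true).card : ℝ) = M := by
    exact_mod_cast h1
  rcases le_total (1 / 2 * (M : ℝ))
    (((Finset.univ : Finset (Fin M)).filter fun e => s e = false).card : ℝ) with h4 | h4
  · refine ⟨fun _ => false, ?_⟩
    rw [hv false]
    exact h4
  · refine ⟨fun _ => true, ?_⟩
    rw [hv true]
    linarith

end h24

open Classical in
theorem exists_tuples {M q : ℕ} (hM : 0 < M) (a : Fin M → Fin 3 → Fin q) (s : Fin M → Bool)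
    (h : ∀ y : Fin (3 * q) → Bool, (((Finset.univ : Finset (Fin M)).filter fun e =>
      ∏ t, sg (y (ve a e t)) = sg (s e)).card : ℝ) ≤ 5 / 8 * M) (k : ℕ) (hq : 12 ≤ q) :
    ∃ φ : Fin (2 ^ k * q) → Fin k → Fin M,
      ∑ y : Fin (3 * q) → Bool, (2 : ℝ) ^ nsat a s φ y
        ≤ 2 * (2 ^ (3 * q) * Real.exp (q * (5 / 4) ^ k)) ∧ ∃ y, q ≤ 2 * nsat a s φ y := by
  obtain ⟨y₀, hy₀⟩ := h24.exists_half a s
  obtain ⟨φ, h1, h2⟩ := h24.exists_phi k hM (fun (y : Fin (3 * q) → Bool) e =>
    ∏ t, sg (y (ve a e t)) = sg (s e)) (5 / 8) h y₀ hy₀ q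
  have hn : ∀ y, nsat a s φ y = ((Finset.univ : Finset (Fin (2 ^ k * q))).filter
      fun τ => ∀ l : Fin k, ∏ t, sg (y (ve a (φ τ l) t)) = sg (s (φ τ l))).card := by
    intro y
    simp only [nsat, Sat]
  refine ⟨φ, ?_, y₀, ?_⟩
  · refine le_trans (le_of_eq ?_) (h1.trans (le_of_eq ?_))
    · exact Finset.sum_congr rfl fun y _ => by rw [hn]
    · rw [Fintype.card_fun, Fintype.card_bool, Fintype.card_fin]
      push_cast
      have h4 : (5 / 4 : ℝ) ^ k = 2 ^ k * (5 / 8) ^ k := by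
        rw [← mul_pow]
        norm_num
      rw [h4]
      congr 3
      ring
  · have h3 : (1 / 2 : ℝ) ^ nsat a s φ y₀ ≤ 2 * Real.exp (-(q / 2)) := by
      rw [hn]
      exact h2
    have h4 : (q : ℝ) / 2 ≤ (nsat a s φ y₀ + 1) * Real.log 2 := by
      have h5 := Real.log_le_log (by positivity) h3
      rw [Real.log_pow, Real.log_mul (by norm_num) (Real.exp_pos _).ne', Real.log_exp, one_div,
        Real.log_inv] at h5
      linarith
    have h5 : Real.log 2 < 0.6931471808 := Real.log_two_lt_d9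
    have h6 : (12 : ℝ) ≤ q := by exact_mod_cast hq
    have h7 : (0 : ℝ) ≤ nsat a s φ y₀ := Nat.cast_nonneg _
    have h8 : (nsat a s φ y₀ + 1) * Real.log 2 ≤ ((nsat a s φ y₀ : ℝ) + 1) * 0.6931471808 :=
      mul_le_mul_of_nonneg_left h5.le (by linarith)
    have h9 : (q : ℝ) ≤ 2 * (nsat a s φ y₀ : ℝ) := by linarith
    exact_mod_cast h9

end LIFTIS
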