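import Pool.Agent.LIFT.FinalCore4
import Pool.Agent.LIFTIS.Tuples
import Pool.Agent.LIFTIS.Coef

/-!
# LIFTIS, part (d): the impossibility for tuples of equations (helper24)

`b` and `Q₀` do not depend on the length `k` of the tuples.
-/

set_option autoImplicit false

open scoped BigOperators Matrix Kronecker

namespace LIFTIS

open LIFT SDX LIFT.h93d

open Classical in
theorem final_core (γ : ℝ) (hγ : 0 < γ) (hγ1 : γ ≤ 1) :
    ∃ (c : ℝ) (b Q₀ : ℕ), 0 < c ∧ 0 < b ∧ 5 ≤ Q₀ ∧ ∀ k q : ℕ, 0 < k → Q₀ * k ≤ q →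
      ∃ (M : ℕ) (a : Fin M → Fin 3 → Fin q) (s : Fin M → Bool)
        (φ : Fin (2 ^ k * q) → Fin k → Fin M)
        (mu : (Fin (3 * q) → Fin b) → (Fin (3 * q) × Fin b → Bool) → ℝ),
      ∑ y : Fin (3 * q) → Bool, (2 : ℝ) ^ nsat a s φ y
        ≤ 2 * 2 ^ (3 * q) * Real.exp (q * (5 / 4) ^ k) ∧
      (∃ y, q ≤ 2 * nsat a s φ y) ∧
      (∀ S, ∑ x, mu S x = 2 ^ (3 * q * b)) ∧
      (∀ (u : (Fin (3 * q) × Fin b → Bool) → ℝ) (v : (Fin (3 * q) → Fin b) → ℝ),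
        (∀ x, 0 ≤ u x ∧ u x ≤ 1) → (∀ S, 0 ≤ v S ∧ v S ≤ 1) →
        -(γ / 2 * ((b : ℝ) ^ (3 * q) * 2 ^ (3 * q * b)))
          ≤ ∑ S, ∑ x, v S * (u x * mu S x)) ∧
      ∀ (r : ℕ) (E : Type) [AddCommGroup E] [Module ℝ E]
        (𝓐 : AffineSubspace ℝ (E × Matrix (Fin r) (Fin r) ℝ))
        (𝒳 : Finset (Fin (3 * q) × Fin b → Bool)) (𝒮 : Finset (Fin (3 * q) → Fin b))
        (pt : (Fin (3 * q) × Fin b → Bool) → E × Matrix (Fin r) (Fin r) ℝ)
        (obj : (Fin (3 * q) → Fin b) → (E × Matrix (Fin r) (Fin r) ℝ) →ᵃ[ℝ] ℝ),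
        (r : ℝ) ≤ Real.exp (c * q) →
        γ * ((b : ℝ) ^ (3 * q) * 2 ^ (3 * q * b)) ≤ ∑ S ∈ 𝒮, ∑ x ∈ 𝒳, mu S x →
        (∀ x ∈ 𝒳, pt x ∈ 𝓐 ∧ (pt x).2.PosSemidef) →
        (∀ S ∈ 𝒮, ∀ x ∈ 𝒳, obj S (pt x) = (nsat a s φ (rs S x) : ℝ)) →
        (∀ S ∈ 𝒮, ∀ p ∈ 𝓐, p.2.PosSemidef → obj S p ≤ 3 / 4 * ((2 : ℝ) ^ k * q)) → False := by
  obtain ⟨Δ, hΔ, β, hβ, q₁, hinst⟩ := exists_instance (1 / 8) (by norm_num)
  obtain ⟨lam, b, hlam, hb, -, hlb, q₂, hnum⟩ :=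
    LIFT.h44.in_q4 (β / 16) γ (by positivity) hγ hγ1 q₁ 0
  obtain ⟨q₃, hq₃⟩ := exists_nat_ge (64 / β)
  refine ⟨1 / 2, b, q₂ + q₃ + 12, by norm_num, hb, by omega, fun k q hk hqk => ?_⟩
  have hk1 : 1 ≤ k := hk
  have hqq : q₂ + q₃ + 12 ≤ q := by nlinarith
  obtain ⟨hq₁, hq12, h32, hfin0⟩ := hnum q (by omega)
  have hq : 0 < q := by omega
  obtain ⟨a, s, hsat, hexp⟩ := hinst q hq₁
  have hM : 0 < Δ * q := Nat.mul_pos hΔ hq
  have hq' : (0 : ℝ) < q := by exact_mod_cast hq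
  have hb' : (0 : ℝ) < b := by exact_mod_cast hb
  -- the tuples
  obtain ⟨φ, hφ, hy₀⟩ := exists_tuples hM a s (fun y => by
    have h4 := hsat (y ∘ finProdFinEquiv)
    refine le_trans (le_of_eq ?_) (h4.trans (le_of_eq ?_))
    · congr 1
    · push_cast
      norm_num) k (by omega)
  have hT0 : 0 < 2 ^ k * q := by positivity
  have hT' : (0 : ℝ) < ((2 ^ k * q : ℕ) : ℝ) := by exact_mod_cast hT0
  have hqk' : 4 * (k : ℝ) ≤ β / 16 * q := by
    have h1 : q₃ * k ≤ q := le_trans (Nat.mul_le_mul_right _ (by omega)) hqk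
    have h1' : (q₃ : ℝ) * k ≤ q := by exact_mod_cast h1
    have h2 : 64 / β * (k : ℝ) ≤ q := le_trans (mul_le_mul_of_nonneg_right hq₃ (Nat.cast_nonneg _)) h1'
    rw [div_mul_eq_mul_div, div_le_iff₀ hβ] at h2
    linarith
  have hk' : (1 : ℝ) ≤ k := by exact_mod_cast hk1
  -- the numbers
  set x₀ : ℝ := Real.log 8 with hx₀
  have hx8 : Real.exp (-x₀) = 1 / 8 := by
    rw [hx₀, Real.exp_neg, Real.exp_log (by norm_num)]
    norm_num
  have hx₀q : x₀ ≤ q / 2 := by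
    have h1 : x₀ ≤ 6 := by
      rw [hx₀, Real.log_le_iff_le_exp (by norm_num)]
      have h2 : (6 : ℝ) / 2 + 1 ≤ Real.exp (6 / 2) := Real.add_one_le_exp _
      have h3 : Real.exp (6 / 2) * Real.exp (6 / 2) = Real.exp 6 := by
        rw [← Real.exp_add]
        norm_num
      nlinarith
    have h2 : (12 : ℝ) ≤ q := by exact_mod_cast hq12
    linarith
  have hfin := hfin0 x₀ hx₀q
  -- the pseudo-density
  set t : ℕ := ⌊β * q / 2⌋₊ with ht
  set w : ℕ := t / 4 with hw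
  set d : ℕ := w / 2 with hd
  have h1 : (t : ℝ) ≤ β * q / 2 := Nat.floor_le (by positivity)
  have h2 : β * q / 2 < t + 1 := Nat.lt_floor_add_one _
  have h3 : 255 ≤ t := by
    have : (255 : ℝ) < t + 1 := by linarith
    have : 255 < t + 1 := by exact_mod_cast this
    omega
  have hβd : β / 16 * q ≤ d + 1 := by
    have h4 : t + 1 ≤ 8 * (d + 1) := by omega
    have h5 : (t : ℝ) + 1 ≤ 8 * (d + 1) := by exact_mod_cast h4
    linarith
  have hβk : β / 16 * q ≤ ((w - 3 * k : ℕ) : ℝ) := by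
    have h4 : t + 1 ≤ 4 * (w + 1) := by omega
    have h5 : (t : ℝ) + 1 ≤ 4 * (w + 1) := by exact_mod_cast h4
    have h6 : (w : ℝ) ≤ ((w - 3 * k : ℕ) : ℝ) + 3 * k := by
      have : w ≤ (w - 3 * k) + 3 * k := by omega
      exact_mod_cast this
    linarith
  have hexp2 : ∀ C : Finset (Fin (Δ * q)), C.Nonempty → C.card ≤ 2 * t →
      (C.card : ℝ) / 4 ≤ ((odd (vars a) C).card : ℝ) := fun C hC hCt => by
    rw [odd_card]
    refine hexp C hC ?_
    have : (C.card : ℝ) ≤ 2 * t := by exact_mod_cast hCt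
    linarith
  obtain ⟨D, hD1, hD2, hD3, hD4, hD5⟩ := xor_pd3 (t := t) (w := w) (d := d) (vars a) s (by omega)
    (by omega) (by omega) (vars_card a) (fun C hC hCt => by
      have h6 := hexp2 C hC hCt
      have h7 : (0 : ℝ) < C.card := by exact_mod_cast hC.card_pos
      have h8 : (0 : ℝ) < ((odd (vars a) C).card : ℝ) := by linarith
      exact Finset.card_pos.1 (by exact_mod_cast h8))
    (fun C hC hCt => by
      have h6 := hexp2 C (Finset.card_pos.1 (by omega)) hCt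
      have h7 : (t : ℝ) < C.card := by exact_mod_cast hC
      have h8 : (w : ℝ) * 4 ≤ t := by
        have : w * 4 ≤ t := Nat.div_mul_le_self _ _
        exact_mod_cast this
      have h9 : (w : ℝ) < ((odd (vars a) C).card : ℝ) := by linarith
      exact_mod_cast h9)
  have h2pos : (0 : ℝ) < 2 ^ (3 * q) := by positivity
  have hDsum : ∑ y, D y = 2 ^ (3 * q) := by
    have h6 := hD3
    rw [coef, Fintype.card_fin, div_eq_iff h2pos.ne', one_mul] at h6
    simpa [chr] using h6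
  refine ⟨Δ * q, a, s, φ, fun S x => D (rs S x), hφ.trans (le_of_eq (by ring)), hy₀, ?_, ?_, ?_⟩
  · intro S
    have h6 := sum_rs S D
    rw [hDsum] at h6
    have h7 : (2 : ℝ) ^ (3 * q) * (∑ x : Fin (3 * q) × Fin b → Bool, D (rs S x))
        = 2 ^ (3 * q) * 2 ^ (3 * q * b) := by rw [h6]; ring
    exact mul_left_cancel₀ h2pos.ne' h7
  · intro u v hu hv
    have h6 := rect4 (m := 3 * q) (d := d) hb lam (2 ^ (3 * q)) hlam hlb h2pos D hD2 hD5 u hu v hv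
    have h7 := (hfin d (w - 3 * k) 1 hβd hβk one_pos (by
      have := Real.one_le_exp (show (0 : ℝ) ≤ (q : ℝ) / 2 by positivity)
      push_cast
      linarith)).1
    refine le_trans (neg_le_neg ?_) h6
    calc (b : ℝ) ^ (3 * q) * 2 ^ (3 * q * b) * (2 * 2 ^ (3 * q) / lam ^ (d + 1)
          * Real.sqrt (24 ^ (3 * q)))
        ≤ (b : ℝ) ^ (3 * q) * 2 ^ (3 * q * b) * (γ / 2) :=
          mul_le_mul_of_nonneg_left h7 (by positivity)
      _ = γ / 2 * ((b : ℝ) ^ (3 * q) * 2 ^ (3 * q * b)) := by ring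
  intro r E _ _ 𝓐 𝒳 𝒮 pt obj hr0 hrect hpt hval hno
  have hr : (r : ℝ) ≤ Real.exp (q / 2) := by
    refine hr0.trans (le_of_eq ?_)
    congr 1
    ring
  set δ : ℝ := Real.exp (-x₀) with hδdef
  have hδ : 0 < δ := Real.exp_pos _
  -- the factorisation
  set τ : ℝ := δ * γ / (8 * 2 ^ (3 * q)) with hτ
  have hτ0 : 0 < τ := by positivity
  have hτ1 : τ ≤ 1 / 4 := by
    rw [hτ, div_le_iff₀ (by positivity)]
    have h10 : (1 : ℝ) ≤ 2 ^ (3 * q) := one_le_pow₀ (by norm_num)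
    have h11 : δ * γ ≤ 1 := mul_le_one₀ (by linarith) hγ.le hγ1
    linarith
  have hτ2 : 2 ^ (3 * q) * τ = δ * γ / 8 := by
    rw [hτ]
    field_simp
  obtain ⟨P, Q, hP, hQ, hP0, hQ0, hPQ⟩ := factor5 𝓐 δ 𝒳 pt hpt 𝒮
    (fun S => (2 : ℝ)⁻¹ • (AffineMap.const ℝ _ (1 : ℝ) - (((2 ^ k * q : ℕ) : ℝ)⁻¹) • obj S))
    (fun S x => gg a s φ (rs S x) / 2)
    (fun S hS x hx => by
      have h12 : gg a s φ (rs S x) = 1 - obj S (pt x) / ((2 ^ k * q : ℕ) : ℝ) := by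
        rw [hval S hS x hx, gg_eq]
      rw [h12]
      change (2 : ℝ)⁻¹ * (1 - (((2 ^ k * q : ℕ) : ℝ))⁻¹ * obj S (pt x)) = _
      ring)
    (fun S hS p hp hp2 => by
      have h12 := hno S hS p hp hp2
      change δ ≤ (2 : ℝ)⁻¹ * (1 - (((2 ^ k * q : ℕ) : ℝ))⁻¹ * obj S p)
      have h13 : (((2 ^ k * q : ℕ) : ℝ))⁻¹ * obj S p ≤ 3 / 4 := by
        rw [inv_mul_le_iff₀ hT']
        push_cast
        linarith
      linarith) τ hτ0
  have hcoef2 : ∀ A : Finset (Fin (3 * q)), coef A (fun y => D y * (gg a s φ y / 2))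
      = coef A (fun y => D y * gg a s φ y) / 2 := by
    intro A
    have h12 : ∑ y, D y * (gg a s φ y / 2) * chr A y
        = (∑ y, D y * gg a s φ y * chr A y) / 2 := by
      rw [Finset.sum_div]
      exact Finset.sum_congr rfl fun y _ => by ring
    simp only [coef]
    rw [h12, div_right_comm]
  have hlow : ∀ A : Finset (Fin (3 * q)), A.card < w - 3 * k →
      coef A (fun y => D y * (gg a s φ y / 2)) = 0 := by
    intro A hA
    rw [hcoef2, coef_gg_low a s φ (w := w) hT0 D hD4 A (by omega), zero_div]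
  refine main4 (m := 3 * q) (b := b) (r := r + 1) (d := d) hb (Nat.succ_pos r) lam (2 ^ (3 * q))
    γ δ τ (Real.sqrt (2 ^ (3 * q) / (b : ℝ) ^ (w - 3 * k)))
    hlam hlb h2pos hγ hγ1 hδ hτ0.le hτ1 D (fun y => gg a s φ y / 2) hD2 hD5 hDsum ?_ ?_ ?_ 𝒳 𝒮
    hrect P hP Q hQ hP0 hQ0 ?_ ?_
  · intro y
    have := gg_le_one a s φ y
    change gg a s φ y / 2 ≤ 1
    linarith
  · have h14 := hlow ∅ (by
      rw [Finset.card_empty]
      have h15 : (0 : ℝ) < ((w - 3 * k : ℕ) : ℝ) := by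
        have : 0 < β / 16 * q := by positivity
        linarith
      exact_mod_cast h15)
    rw [coef, Fintype.card_fin, div_eq_iff h2pos.ne', zero_mul] at h14
    simpa only [chr, Finset.prod_empty, mul_one] using h14
  · refine Real.sqrt_le_sqrt ?_
    have h14 := var_le (k := w - 3 * k) hb 0 (fun y => D y * (gg a s φ y / 2))
      (fun A hA => by rw [hlow A hA, abs_zero])
      (fun A => by
        rw [hcoef2, abs_div, abs_of_pos (by norm_num : (0 : ℝ) < 2)]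
        have := coef_gg_le a s φ hT0 D hD1 A
        linarith)
    refine h14.trans (le_of_eq ?_)
    ring
  · intro S hS x hx
    exact hPQ S hS x hx
  · rw [hτ2]
    exact (hfin d (w - 3 * k) (r + 1) hβd hβk (Nat.succ_pos r) (by
      have := Real.one_le_exp (show (0 : ℝ) ≤ (q : ℝ) / 2 by positivity)
      push_cast
      linarith)).2

end LIFTIS
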