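import Mathlib
import Pool.Agent.LIFT.FinalCore4

/-!
# SDP counters for independent sets: tuples of equations (definitions)

The base instance has `3 q` Boolean variables and `M` equations `(a e, s e)`; the tuple `τ : Fin T`
consists of the `k` equations `φ τ l`.
-/

set_option autoImplicit false

open scoped BigOperators Matrix

namespace LIFTIS

open SDX LIFT.h93d

/-- the assignment `y` satisfies all the equations of the tuple `τ` -/
def Sat {M T k q : ℕ} (a : Fin M → Fin 3 → Fin q) (s : Fin M → Bool) (φ : Fin T → Fin k → Fin M)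
    (y : Fin (3 * q) → Bool) (τ : Fin T) : Prop :=
  ∀ l : Fin k, ∏ t, sg (y (ve a (φ τ l) t)) = sg (s (φ τ l))

open Classical in
/-- the number of the satisfied tuples -/
noncomputable def nsat {M T k q : ℕ} (a : Fin M → Fin 3 → Fin q) (s : Fin M → Bool)
    (φ : Fin T → Fin k → Fin M) (y : Fin (3 * q) → Bool) : ℕ :=
  ((Finset.univ : Finset (Fin T)).filter fun τ => Sat a s φ y τ).card

/-- the indicator function of `Sat` as a polynomial -/
noncomputable def satf {M T k q : ℕ} (a : Fin M → Fin 3 → Fin q) (s : Fin M → Bool)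
    (φ : Fin T → Fin k → Fin M) (τ : Fin T) (y : Fin (3 * q) → Bool) : ℝ :=
  ∏ l : Fin k, (1 + sg (s (φ τ l)) * chr (vars a (φ τ l)) y) / 2

/-- the fraction of the tuples that are not satisfied -/
noncomputable def gg {M T k q : ℕ} (a : Fin M → Fin 3 → Fin q) (s : Fin M → Bool)
    (φ : Fin T → Fin k → Fin M) (y : Fin (3 * q) → Bool) : ℝ :=
  1 - (∑ τ, satf a s φ τ y) / T

end LIFTIS
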