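import Pool.Agent.LIFTIS.Defs

/-!
# SDP counters for independent sets: the graph (row (e), helper59)
-/

set_option autoImplicit false

open scoped BigOperators Matrix

namespace LIFTIS

open SDX LIFT.h93d

/-- the labels: a tuple and, for each occurrence of a variable in it, a coordinate and a value -/
abbrev Lab (T k b : ℕ) : Type := Fin T × (Fin k → Fin 3 → Fin b) × (Fin k → Fin 3 → Bool)

theorem card_lab (T k b : ℕ) : Fintype.card (Lab T k b) = T * (8 * b ^ 3) ^ k := by
  simp only [Fintype.card_prod, Fintype.card_fun, Fintype.card_fin, Fintype.card_bool]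
  rw [mul_pow, ← pow_mul, ← pow_mul, show (8 : ℕ) = 2 ^ 3 by norm_num, ← pow_mul]
  ring

section
variable {M T k q b : ℕ} (a : Fin M → Fin 3 → Fin q) (s : Fin M → Bool)
  (φ : Fin T → Fin k → Fin M)

/-- the graph on the labels: two labels are adjacent if they give different values to the same
coordinate of the same variable -/
def HL (b : ℕ) : SimpleGraph (Lab T k b) where
  Adj v w := v ≠ w ∧ ∃ l t l' t', ve a (φ v.1 l) t = ve a (φ w.1 l') t' ∧
    v.2.1 l t = w.2.1 l' t' ∧ v.2.2 l t ≠ w.2.2 l' t'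
  symm := ⟨fun _ _ ⟨h, l, t, l', t', h1, h2, h3⟩ =>
    ⟨h.symm, l', t', l, t, h1.symm, h2.symm, h3.symm⟩⟩
  loopless := ⟨fun _ h => h.1 rfl⟩

/-- the label of the tuple `τ` -/
def lab (S : Fin (3 * q) → Fin b) (y : Fin (3 * q) → Bool) (τ : Fin T) : Lab T k b :=
  (τ, fun l t => S (ve a (φ τ l) t), fun l t => y (ve a (φ τ l) t))

theorem lab_inj (S : Fin (3 * q) → Fin b) (y : Fin (3 * q) → Bool) :
    Function.Injective (lab a φ S y) := fun _ _ h => (Prod.mk.inj h).1

open Classical in
/-- the vertex set -/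
noncomputable def VS (S : Fin (3 * q) → Fin b) : Finset (Lab T k b) :=
  Finset.univ.filter fun v => ∃ y, Sat a s φ y v.1 ∧ v = lab a φ S y v.1

open Classical in
/-- the independent set of `x` -/
noncomputable def Wx (x : Fin (3 * q) × Fin b → Bool) : Finset (Lab T k b) :=
  Finset.univ.filter fun v => ∀ l t, v.2.2 l t = x (ve a (φ v.1 l) t, v.2.1 l t)

theorem Wx_indep (x : Fin (3 * q) × Fin b → Bool) :
    (HL a φ b).IsIndepSet (Wx a φ x : Set (Lab T k b)) := by
  intro v hv w hw _ hadj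
  obtain ⟨-, l, t, l', t', h1, h2, h3⟩ := hadj
  have hv' := (Finset.mem_filter.1 (Finset.mem_coe.1 hv)).2 l t
  have hw' := (Finset.mem_filter.1 (Finset.mem_coe.1 hw)).2 l' t'
  exact h3 (by rw [hv', hw', h1, h2])

/-- the satisfied tuples -/
theorem Sat_congr {y y' : Fin (3 * q) → Bool} {τ : Fin T}
    (h : ∀ l t, y (ve a (φ τ l) t) = y' (ve a (φ τ l) t)) (hy : Sat a s φ y τ) :
    Sat a s φ y' τ := by
  intro l
  rw [← hy l]
  exact Finset.prod_congr rfl fun t _ => by rw [h l t]

theorem Wx_inter_eq (S : Fin (3 * q) → Fin b) (x : Fin (3 * q) × Fin b → Bool)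
    [DecidablePred fun τ => Sat a s φ (rs S x) τ] [DecidableEq (Lab T k b)] :
    Wx a φ x ∩ VS a s φ S
      = (Finset.univ.filter fun τ => Sat a s φ (rs S x) τ).map
        ⟨lab a φ S (rs S x), lab_inj a φ S (rs S x)⟩ := by
  ext v
  simp only [Finset.mem_inter, Wx, VS, Finset.mem_filter, Finset.mem_univ, true_and,
    Finset.mem_map, Function.Embedding.coeFn_mk]
  constructor
  · rintro ⟨h1, y, hy, hv⟩
    have h2 : ∀ l t, v.2.1 l t = S (ve a (φ v.1 l) t) := fun l t => by rw [hv]; rfl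
    have h3 : ∀ l t, v.2.2 l t = y (ve a (φ v.1 l) t) := fun l t => by
      conv_lhs => rw [hv]
      rfl
    have h4 : ∀ l t, y (ve a (φ v.1 l) t) = rs S x (ve a (φ v.1 l) t) := fun l t => by
      rw [← h3, h1, h2, rs]
    refine ⟨v.1, Sat_congr a s φ h4 hy, ?_⟩
    refine Prod.ext rfl (Prod.ext ?_ ?_)
    · funext l t
      exact (h2 l t).symm
    · funext l t
      change rs S x (ve a (φ v.1 l) t) = v.2.2 l t
      rw [h3, h4]
  · rintro ⟨τ, hτ, rfl⟩
    exact ⟨fun l t => rfl, rs S x, hτ, rfl⟩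

theorem Wx_inter (S : Fin (3 * q) → Fin b) (x : Fin (3 * q) × Fin b → Bool)
    [DecidableEq (Lab T k b)] :
    (Wx a φ x ∩ VS a s φ S).card = nsat a s φ (rs S x) := by
  classical
  rw [Wx_inter_eq, Finset.card_map, nsat]

/-- an independent subset of the vertex set comes from an assignment -/
theorem exists_assignment (S : Fin (3 * q) → Fin b) (I : Finset (Lab T k b))
    (hI : I ⊆ VS a s φ S) (hind : (HL a φ b).IsIndepSet (I : Set (Lab T k b))) :
    ∃ y : Fin (3 * q) → Bool, ∀ v ∈ I, Sat a s φ y v.1 ∧ v = lab a φ S y v.1 := by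
  classical
  let y : Fin (3 * q) → Bool := fun j =>
    if ∃ v ∈ I, ∃ l t, ve a (φ v.1 l) t = j ∧ v.2.2 l t = true then true else false
  have key : ∀ v ∈ I, ∀ l t, v.2.2 l t = y (ve a (φ v.1 l) t) := by
    intro v hv l t
    by_cases hex : ∃ w ∈ I, ∃ l' t', ve a (φ w.1 l') t' = ve a (φ v.1 l) t ∧ w.2.2 l' t' = true
    · have h1 : y (ve a (φ v.1 l) t) = true := if_pos hex
      rw [h1]
      obtain ⟨w, hw, l', t', h2, h3⟩ := hex
      obtain ⟨yv, -, hyv⟩ := (Finset.mem_filter.1 (hI hv)).2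
      obtain ⟨yw, -, hyw⟩ := (Finset.mem_filter.1 (hI hw)).2
      by_cases hvw : v = w
      · subst hvw
        have e1 : v.2.2 l t = yv (ve a (φ v.1 l) t) := by
          conv_lhs => rw [hyv]
          rfl
        have e2 : v.2.2 l' t' = yv (ve a (φ v.1 l') t') := by
          conv_lhs => rw [hyv]
          rfl
        rw [e1, ← h2, ← e2, h3]
      · by_contra h4
        refine hind (Finset.mem_coe.2 hv) (Finset.mem_coe.2 hw) hvw ⟨hvw, l, t, l', t', h2.symm,
          ?_, ?_⟩
        · have e1 : v.2.1 l t = S (ve a (φ v.1 l) t) := by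
            conv_lhs => rw [hyv]
            rfl
          have e2 : w.2.1 l' t' = S (ve a (φ w.1 l') t') := by
            conv_lhs => rw [hyw]
            rfl
          rw [e1, e2, h2]
        · rw [h3]
          exact h4
    · have h1 : y (ve a (φ v.1 l) t) = false := if_neg hex
      rw [h1]
      by_contra h4
      exact hex ⟨v, hv, l, t, rfl, by simpa using h4⟩
  refine ⟨y, fun v hv => ?_⟩
  obtain ⟨yv, hsat, hyv⟩ := (Finset.mem_filter.1 (hI hv)).2
  have e1 : ∀ l t, v.2.2 l t = yv (ve a (φ v.1 l) t) := fun l t => by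
    conv_lhs => rw [hyv]
    rfl
  refine ⟨Sat_congr a s φ (fun l t => by rw [← e1, key v hv]) hsat, ?_⟩
  conv_lhs => rw [hyv]
  refine Prod.ext rfl (Prod.ext rfl ?_)
  funext l t
  change yv (ve a (φ v.1 l) t) = y (ve a (φ v.1 l) t)
  rw [← e1, key v hv]

open Classical in
theorem count_le (S : Fin (3 * q) → Fin b) :
    (((VS a s φ S).powerset.filter fun I : Finset (Lab T k b) =>
      (HL a φ b).IsIndepSet (I : Set (Lab T k b))).card : ℝ)
      ≤ ∑ y : Fin (3 * q) → Bool, (2 : ℝ) ^ nsat a s φ y := by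
  have h1 : (VS a s φ S).powerset.filter (fun I : Finset (Lab T k b) =>
        (HL a φ b).IsIndepSet (I : Set (Lab T k b)))
      ⊆ (Finset.univ : Finset (Fin (3 * q) → Bool)).biUnion fun y =>
        ((Finset.univ.filter fun τ => Sat a s φ y τ).map
          ⟨lab a φ S y, lab_inj a φ S y⟩).powerset := by
    intro I hI
    rw [Finset.mem_filter, Finset.mem_powerset] at hI
    obtain ⟨y, hy⟩ := exists_assignment a s φ S I hI.1 hI.2
    rw [Finset.mem_biUnion]
    refine ⟨y, Finset.mem_univ _, ?_⟩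
    rw [Finset.mem_powerset]
    intro v hv
    rw [Finset.mem_map]
    refine ⟨v.1, ?_, (hy v hv).2.symm⟩
    rw [Finset.mem_filter]
    exact ⟨Finset.mem_univ _, (hy v hv).1⟩
  have h2 := (Finset.card_le_card h1).trans Finset.card_biUnion_le
  have h3 : ∀ y : Fin (3 * q) → Bool, (((Finset.univ.filter fun τ => Sat a s φ y τ).map
          ⟨lab a φ S y, lab_inj a φ S y⟩).powerset).card = 2 ^ nsat a s φ y := by
    intro y
    rw [Finset.card_powerset, Finset.card_map, nsat]
  simp only [h3] at h2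
  exact_mod_cast h2

/-- many independent sets -/
theorem le_count (S : Fin (3 * q) → Fin b) (y : Fin (3 * q) → Bool)
    [DecidablePred fun I : Finset (Lab T k b) => (HL a φ b).IsIndepSet (I : Set (Lab T k b))] :
    2 ^ nsat a s φ y ≤
      ((VS a s φ S).powerset.filter fun I : Finset (Lab T k b) =>
        (HL a φ b).IsIndepSet (I : Set (Lab T k b))).card := by
  classical
  have h3 : (((Finset.univ.filter fun τ => Sat a s φ y τ).map
          ⟨lab a φ S y, lab_inj a φ S y⟩).powerset).card = 2 ^ nsat a s φ y := by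
    rw [Finset.card_powerset, Finset.card_map, nsat]
  rw [← h3]
  refine Finset.card_le_card fun I hI => ?_
  rw [Finset.mem_powerset] at hI
  have h4 : ∀ v ∈ I, Sat a s φ y v.1 ∧ v = lab a φ S y v.1 := by
    intro v hv
    obtain ⟨τ, hτ, rfl⟩ := Finset.mem_map.1 (hI hv)
    exact ⟨(Finset.mem_filter.1 hτ).2, rfl⟩
  rw [Finset.mem_filter, Finset.mem_powerset]
  refine ⟨fun v hv => ?_, ?_⟩
  · rw [VS, Finset.mem_filter]
    exact ⟨Finset.mem_univ _, y, h4 v hv⟩
  · intro v hv w hw _ hadj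
    obtain ⟨-, l, t, l', t', h1, -, h3⟩ := hadj
    have e1 : v.2.2 l t = y (ve a (φ v.1 l) t) := by
      conv_lhs => rw [(h4 v hv).2]
      rfl
    have e2 : w.2.2 l' t' = y (ve a (φ w.1 l') t') := by
      conv_lhs => rw [(h4 w hw).2]
      rfl
    exact h3 (by rw [e1, e2, h1])

end

end LIFTIS
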