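import Mathlib

/-!
# SDP counters for independent sets: transport of graphs along an embedding, numbers (helper59)
-/

set_option autoImplicit false

open scoped BigOperators Matrix

namespace LIFTIS

theorem indep_map_iff {L L' : Type} (G : SimpleGraph L) (e : L ↪ L') (I : Finset L) :
    (G.map e).IsIndepSet ((I.map e : Finset L') : Set L') ↔ G.IsIndepSet (I : Set L) := by
  constructor
  · intro h v hv w hw hvw hadj
    refine h (Finset.mem_coe.2 (Finset.mem_map_of_mem e (Finset.mem_coe.1 hv)))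
      (Finset.mem_coe.2 (Finset.mem_map_of_mem e (Finset.mem_coe.1 hw)))
      (fun h1 => hvw (e.injective h1)) ?_
    exact (SimpleGraph.map_adj _ _ _ _).2 ⟨v, w, hadj, rfl, rfl⟩
  · intro h v hv w hw hvw hadj
    obtain ⟨v', w', h1, rfl, rfl⟩ := (SimpleGraph.map_adj _ _ _ _).1 hadj
    have hv' : v' ∈ I := (Finset.mem_map' e).1 (Finset.mem_coe.1 hv)
    have hw' : w' ∈ I := (Finset.mem_map' e).1 (Finset.mem_coe.1 hw)
    exact h (Finset.mem_coe.2 hv') (Finset.mem_coe.2 hw') (fun h2 => hvw (by rw [h2])) h1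

open Classical in
theorem card_indep_map {L L' : Type} [Fintype L] [Fintype L'] (G : SimpleGraph L) (e : L ↪ L')
    (V : Finset L) :
    Nat.card {I : Finset L' // I ⊆ V.map e ∧ (G.map e).IsIndepSet (I : Set L')}
      = (V.powerset.filter fun I : Finset L => G.IsIndepSet (I : Set L)).card := by
  rw [Nat.card_eq_fintype_card, Fintype.card_subtype]
  have h : (Finset.univ : Finset (Finset L')).filter (fun I =>
      I ⊆ V.map e ∧ (G.map e).IsIndepSet (I : Set L'))
      = (V.powerset.filter fun I : Finset L => G.IsIndepSet (I : Set L)).map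
        (Finset.mapEmbedding e).toEmbedding := by
    ext I
    rw [Finset.mem_filter, Finset.mem_map]
    constructor
    · rintro ⟨-, h1, h2⟩
      obtain ⟨I', hI', rfl⟩ := Finset.subset_map_iff.1 h1
      refine ⟨I', ?_, rfl⟩
      rw [Finset.mem_filter, Finset.mem_powerset]
      exact ⟨hI', (indep_map_iff G e I').1 h2⟩
    · rintro ⟨I', hI', rfl⟩
      rw [Finset.mem_filter, Finset.mem_powerset] at hI'
      refine ⟨Finset.mem_univ _, ?_, ?_⟩
      · exact Finset.map_subset_map.2 hI'.1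
      · exact (indep_map_iff G e I').2 hI'.2
  rw [h, Finset.card_map]

/-- the number of equations in a tuple -/
theorem exists_k (C : ℝ) (hC : 1 ≤ C) :
    ∃ k : ℕ, 0 < k ∧ 7 * C ≤ (8 / 5 : ℝ) ^ k ∧ (8 / 5 : ℝ) ^ k ≤ 12 * C := by
  obtain ⟨n, h1, h2⟩ := exists_nat_pow_near (x := 7 * C) (y := (8 / 5 : ℝ)) (by linarith)
    (by norm_num)
  refine ⟨n + 1, n.succ_pos, h2.le, ?_⟩
  rw [pow_succ]
  linarith

/-- the exponent `K` -/
theorem exists_K (B : ℕ) : ∃ K : ℕ, (B : ℝ) ≤ (8 / 5 : ℝ) ^ K :=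
  ((one_lt_div (by norm_num : (0 : ℝ) < 5)).2 (by norm_num)
    |> fun h => pow_unbounded_of_one_lt (B : ℝ) h).imp fun _ h => h.le

/-- the logarithm of the number of independent sets -/
theorem logb_le {k q : ℕ} (hq : 5 ≤ q) (i : ℝ) (hi : 1 ≤ i)
    (h : i ≤ 2 * 2 ^ (3 * q) * Real.exp (q * (5 / 4) ^ k)) (C : ℝ) (hC : 1 ≤ C)
    (hk : 7 * C ≤ (8 / 5 : ℝ) ^ k) :
    C * Real.logb 2 i ≤ 3 / 4 * (2 ^ k * q) := by
  have hq' : (5 : ℝ) ≤ q := by exact_mod_cast hq
  set x : ℝ := (5 / 4 : ℝ) ^ k with hx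
  have hx1 : 1 ≤ x := one_le_pow₀ (by norm_num)
  have hl2 : 0 < Real.log 2 := Real.log_pos one_lt_two
  have hl2' : 0.6931471803 < Real.log 2 := Real.log_two_gt_d9
  have h1 : Real.log i ≤ Real.log 2 + 3 * q * Real.log 2 + q * x := by
    refine (Real.log_le_log (by linarith) h).trans (le_of_eq ?_)
    rw [Real.log_mul (by positivity) (Real.exp_pos _).ne', Real.log_exp,
      Real.log_mul two_ne_zero (by positivity), Real.log_pow]
    push_cast
    ring
  have h2 : Real.logb 2 i ≤ 5 * q * x := by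
    rw [Real.logb, div_le_iff₀ hl2]
    refine h1.trans ?_
    have h3 : Real.log 2 + 3 * q * Real.log 2 ≤ 3.2 * (q * x) * Real.log 2 := by
      have h4 : 1 + 3 * (q : ℝ) ≤ 3.2 * (q * x) := by nlinarith
      calc Real.log 2 + 3 * q * Real.log 2 = (1 + 3 * q) * Real.log 2 := by ring
        _ ≤ _ := mul_le_mul_of_nonneg_right h4 hl2.le
    have h5 : q * x ≤ 1.8 * (q * x) * Real.log 2 := by
      have h6 : 0 ≤ q * x := by positivity
      nlinarith
    calc _ ≤ 3.2 * (q * x) * Real.log 2 + 1.8 * (q * x) * Real.log 2 := by linarith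
      _ = _ := by ring
  have h3 : C * Real.logb 2 i ≤ C * (5 * q * x) := mul_le_mul_of_nonneg_left h2 (by linarith)
  refine h3.trans ?_
  have h4 : (2 : ℝ) ^ k = (8 / 5) ^ k * x := by
    rw [hx, ← mul_pow]
    norm_num
  rw [h4]
  have h5 : 0 ≤ q * x := by positivity
  have h6 : 20 / 3 * C ≤ (8 / 5 : ℝ) ^ k := by linarith
  nlinarith [mul_le_mul_of_nonneg_right h6 h5]

end LIFTIS
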